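import Pool.Agent.Helper22.HG.Der
import Pool.Agent.Helper5.HG.G3
import Pool.Agent.Helper13.HG2.Defs

/-!
# Project HG2, block NEG: the primes which exclude a class
-/

set_option autoImplicit false

namespace Pool.Agent.HG

open Polynomial NumberField IsDedekindDomain Filter Topology
open Pool.Agent.Helper22.HG Pool.Agent.Helper70.Art Pool.Agent.H53SCD Pool.Agent.Helper21.HG
open scoped Pointwise IntermediateField

open scoped Classical in
/-- `StmtDer` with primes of degree one -/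
theorem der29 (k L : Type) [Field k] [NumberField k] [Field L] [NumberField L] [Algebra k L]
    [IsGalois k L] (Ω : Finset L) (hst : ∀ σ : L ≃ₐ[k] L, ∀ θ ∈ Ω, σ θ ∈ Ω)
    (hk : ∀ θ ∈ Ω, ∀ a : k, θ ≠ algebraMap k L a) (hcard : Ω.card ≤ 4)
    (B : ℕ → Finset (Pr k)) (hB : ∀ x v, v ∈ B x ↔ nm v ≤ x) :
    ∃ (δ C : ℝ) (Q : Set (Pr k)), 0 < δ ∧
      (∀ v ∈ Q, (nm v).Prime ∧ ∀ P : Pr L,
        P.asIdeal.comap (algebraMap (𝓞 k) (𝓞 L)) = v.asIdeal →
        ∀ θ ∈ Ω, ¬ P.valuation L (θ ^ nm v - θ) < 1) ∧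
      ∀ x : ℕ, 2 ≤ x →
        |∑ v ∈ (B x).filter (· ∈ Q), (1 : ℝ) / nm v - δ * Real.log (Real.log x)| ≤ C := by
  -- the action
  let A : MulAction (L ≃ₐ[k] L) {x // x ∈ Ω} :=
    { smul := fun g x => ⟨g x.1, hst g x.1 x.2⟩
      one_smul := fun x => rfl
      mul_smul := fun g h x => rfl }
  -- integers
  obtain ⟨m₀, hm0, hm⟩ := exists_integral_multiples ℤ ℚ Ω
  set m : ℕ := m₀.natAbs with hmd
  have hm0' : m ≠ 0 := Int.natAbs_ne_zero.2 hm0
  have hmint : ∀ x ∈ Ω, IsIntegral ℤ ((m : L) * x) := by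
    intro x hx
    have h1 := hm x hx
    rw [zsmul_eq_mul] at h1
    rcases Int.natAbs_eq m₀ with h2 | h2
    · have e : (m : L) * x = (m₀ : L) * x := by
        rw [h2, ← hmd]
        push_cast
        rfl
      rw [e]
      exact h1
    · have e : (m : L) * x = -((m₀ : L) * x) := by
        rw [h2, ← hmd]
        push_cast
        ring
      rw [e]
      exact h1.neg
  let β : {x // x ∈ Ω} → 𝓞 L := fun x => ⟨(m : L) * x.1, hmint x.1 x.2⟩
  have hmL : (m : L) ≠ 0 := by exact_mod_cast hm0'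
  have hβ : Function.Injective β := by
    intro x y h
    have h1 : (m : L) * x.1 = (m : L) * y.1 := congrArg (fun z : 𝓞 L => (z : L)) h
    exact Subtype.ext (mul_left_cancel₀ hmL h1)
  have heq : ∀ (g : L ≃ₐ[k] L) (y : {x // x ∈ Ω}), β (g • y) = g • β y := by
    intro g y
    apply RingOfIntegers.ext
    change (m : L) * g y.1 = g ((m : L) * y.1)
    rw [map_mul, map_natCast]
  obtain ⟨C, hC⟩ := density (k := k) β hβ heq
  have hd0 : 0 < d0 k L {x // x ∈ Ω} := by
    obtain ⟨g, hg⟩ := exists_free (G := L ≃ₐ[k] L) (Ω := {x // x ∈ Ω}) (by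
      rw [Nat.card_eq_fintype_card, Fintype.card_coe]
      exact hcard) (by
      intro ω
      by_contra hcon
      push Not at hcon
      have h1 : ω.1 ∈ Set.range (algebraMap k L) := by
        rw [IsGalois.mem_range_algebraMap_iff_fixed]
        exact fun g => congrArg Subtype.val (hcon g)
      obtain ⟨a, ha⟩ := h1
      exact hk ω.1 ω.2 a ha.symm)
    unfold d0
    have h1 : 0 < Nat.card {g : L ≃ₐ[k] L // ∀ ω : {x // x ∈ Ω}, g • ω ≠ ω} := by
      have : Nonempty {g : L ≃ₐ[k] L // ∀ ω : {x // x ∈ Ω}, g • ω ≠ ω} := ⟨⟨g, hg⟩⟩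
      exact Nat.card_pos
    have h2 : 0 < Nat.card (L ≃ₐ[k] L) := Nat.card_pos
    positivity
  obtain ⟨C₁, h1⟩ := density_of_dirichlet B hB (QD k β m) (fun v hv => hv.1)
    (fun p => ZZ (k := k) β p) m.divisors (δ := d0 k L {x // x ∈ Ω}) (C := C) (by
      intro p hp
      rw [Nat.mem_divisors, not_and_or] at hp
      have hpN : ¬ (p : ℕ) ∣ m := by
        rcases hp with hp | hp
        · exact hp
        · exact absurd hm0' hp
      exact card_QD β heq p hpN) (by
      filter_upwards [hC] with s hs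
      exact hs.2)
  refine ⟨d0 k L {x // x ∈ Ω}, C₁, QD k β m, hd0, fun v hv => ⟨hv.1, ?_⟩, h1⟩
  obtain ⟨hpr, hpm, hv⟩ := hv
  intro P hP θ hθ hlt
  set p := nm v with hp
  refine hv P hP ⟨θ, hθ⟩ ?_
  have hpP : (p : 𝓞 L) ∈ P.asIdeal := by
    have h2 : (p : 𝓞 k) ∈ v.asIdeal := Ideal.absNorm_mem v.asIdeal
    rw [← hP, Ideal.mem_comap, map_natCast] at h2
    exact h2
  rw [← HeightOneSpectrum.valuation_lt_one_iff_mem (K := L) P]
  have e : algebraMap (𝓞 L) L (β ⟨θ, hθ⟩ ^ p - β ⟨θ, hθ⟩) =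
      (m : L) ^ p * (θ ^ p - θ) + ((m : L) ^ (p - 1) - 1) * ((m : L) * θ) := by
    rw [map_sub, map_pow]
    change ((m : L) * θ) ^ p - (m : L) * θ = _
    obtain ⟨r, hr⟩ : ∃ r, p = r + 1 := ⟨p - 1, by have := hpr.pos; omega⟩
    rw [hr]
    simp only [Nat.add_sub_cancel]
    ring
  change P.valuation L (algebraMap (𝓞 L) L (β ⟨θ, hθ⟩ ^ p - β ⟨θ, hθ⟩)) < 1
  rw [e]
  refine lt_of_le_of_lt (Valuation.map_add _ _ _) (max_lt ?_ ?_)
  · rw [map_mul]
    have h2 : P.valuation L ((m : L) ^ p) ≤ 1 := by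
      have : (m : L) ^ p = algebraMap (𝓞 L) L ((m : 𝓞 L) ^ p) := by simp
      rw [this]
      exact P.valuation_le_one _
    calc P.valuation L ((m : L) ^ p) * P.valuation L (θ ^ p - θ) ≤ 1 * P.valuation L (θ ^ p - θ) := by gcongr
      _ < 1 := by rw [one_mul]; exact hlt
  · obtain ⟨c, hc⟩ : (p : ℤ) ∣ (m : ℤ) ^ (p - 1) - 1 := by
      have h2 : (m : ZMod p) ≠ 0 := by
        rw [Ne, ZMod.natCast_eq_zero_iff]
        exact hpm
      have hpf : Fact p.Prime := ⟨hpr⟩
      have h3 := ZMod.pow_card_sub_one_eq_one h2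
      rw [← ZMod.intCast_zmod_eq_zero_iff_dvd]
      push_cast
      rw [h3, sub_self]
    have e2 : ((m : L) ^ (p - 1) - 1) * ((m : L) * θ) = algebraMap (𝓞 L) L ((p : 𝓞 L) * ((c : 𝓞 L) * β ⟨θ, hθ⟩)) := by
      have h2 : (m : L) ^ (p - 1) - 1 = (p : L) * (c : L) := by exact_mod_cast congrArg (fun z : ℤ => (z : L)) hc
      rw [h2, map_mul, map_mul, map_natCast, map_intCast, mul_assoc]
      rfl
    rw [e2]
    refine (HeightOneSpectrum.valuation_lt_one_iff_mem (K := L) P _).2 ?_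
    exact Ideal.mul_mem_right _ _ hpP

section neg

variable {E : Type} [Field E] [NumberField E]

/-- Fermat's theorem at a prime -/
theorem fermat29 (w : Pr E) {z : E} (hz : w.valuation E z ≤ 1) :
    w.valuation E (z ^ nm w - z) < 1 := by
  obtain ⟨a, ha⟩ := exists_int_sub w hz
  have h1 : a ^ nm w - a ∈ w.asIdeal := by
    have hmax : w.asIdeal.IsMaximal := w.isMaximal
    obtain ⟨hc, hc2⟩ := card_quot5 w
    have : Finite (𝓞 E ⧸ w.asIdeal) := Nat.finite_of_card_ne_zero (by omega)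
    let _ : Fintype (𝓞 E ⧸ w.asIdeal) := Fintype.ofFinite _
    let _ := Ideal.Quotient.field w.asIdeal
    rw [← Ideal.Quotient.eq_zero_iff_mem, map_sub, map_pow, sub_eq_zero]
    have h3 : Fintype.card (𝓞 E ⧸ w.asIdeal) = nm w := by rw [← hc, Nat.card_eq_fintype_card]
    rw [← h3]
    exact FiniteField.pow_card _
  have hca : Cg w z (a : E) := ⟨hz, val_int _ _, by
    rw [← Valuation.map_neg, neg_sub]
    exact ha⟩
  have h2 : Cg w ((a : E) ^ nm w) (a : E) := ⟨by rw [map_pow]; exact pow_le_one' (val_int _ _) _,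
    val_int _ _, by
      have h4 : ((a : E) ^ nm w - (a : E)) = ((a ^ nm w - a : 𝓞 E) : E) := by push_cast; ring
      rw [h4, val_int_lt]
      exact h1⟩
  exact ((hca.pow _).trans (h2.trans hca.symm)).2.2

open scoped Classical in
/-- a set of primes of degree one and the primes of `k` below -/
theorem descent29 {k E : Type} [Field k] [NumberField k] [Field E] [NumberField E] [Algebra k E]
    {B : ℕ → Finset (Pr k)} (hB : ∀ x v, v ∈ B x ↔ nm v ≤ x)
    {BE : ℕ → Finset (Pr E)} (hBE : ∀ x v, v ∈ BE x ↔ nm v ≤ x) {Q : Set (Pr E)}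
    (hQ : ∀ w ∈ Q, (nm w).Prime) {δ C : ℝ} (hδ : 0 < δ)
    (hsum : ∀ x : ℕ, 2 ≤ x → δ * Real.log (Real.log x) - C ≤
      ∑ v ∈ (BE x).filter (· ∈ Q), (1 : ℝ) / nm v) {M : ℕ} (hM : M ≠ 0) {Q' : Set (Pr k)}
    (hQ' : ∀ w ∈ Q, ¬ nm w ∣ M → ∀ v : Pr k,
      w.asIdeal.comap (algebraMap (𝓞 k) (𝓞 E)) = v.asIdeal → nm v = nm w → v ∈ Q') :
    ∃ δ' C' : ℝ, 0 < δ' ∧ ∀ x : ℕ, 2 ≤ x →
      δ' * Real.log (Real.log x) - C' ≤ ∑ v ∈ (B x).filter (· ∈ Q'), (1 : ℝ) / nm v := by
  have hK : (0 : ℝ) < Module.finrank ℚ E := by exact_mod_cast Module.finrank_pos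
  refine ⟨δ / Module.finrank ℚ E, (C + (BE M).card) / Module.finrank ℚ E, by positivity,
    fun x hx => ?_⟩
  -- the prime below
  have hund : ∀ w : Pr E, ∃ v : Pr k, (nm w).Prime →
      w.asIdeal.comap (algebraMap (𝓞 k) (𝓞 E)) = v.asIdeal ∧ nm v = nm w := by
    intro w
    by_cases hw : (nm w).Prime
    · obtain ⟨v, h1, h2⟩ := exists_under (k := k) w hw (Ideal.absNorm_mem _)
      refine ⟨v, fun _ => ⟨h1, ?_⟩⟩
      -- the norm of `v` divides the norm of `w`
      have hp : Fact (nm w).Prime := ⟨hw⟩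
      obtain ⟨⟨ψ, hψ⟩⟩ : Nonempty {ψ : 𝓞 E →+* ZMod (nm w) // RingHom.ker ψ = w.asIdeal} := by
        obtain ⟨ψ, hψ⟩ := (homEquiv (k := E) (nm w)).surjective ⟨w, rfl⟩
        refine ⟨⟨ψ, ?_⟩⟩
        rw [← homEquiv_ideal, hψ]
      have h3 : RingHom.ker (ψ.comp (algebraMap (𝓞 k) (𝓞 E))) = v.asIdeal := by
        rw [← h1, ← hψ]
        rfl
      have h4 := (homEquiv (k := k) (nm w) (ψ.comp (algebraMap (𝓞 k) (𝓞 E)))).2
      have h5 : (homEquiv (k := k) (nm w) (ψ.comp (algebraMap (𝓞 k) (𝓞 E)))).1 = v := by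
        apply HeightOneSpectrum.ext
        rw [homEquiv_ideal, h3]
      rw [h5] at h4
      exact h4
    · obtain ⟨v, _⟩ := exists_under (k := k) w (exists_prime w).choose_spec.1
        (exists_prime w).choose_spec.2
      exact ⟨v, fun h => absurd h hw⟩
  choose u hu using hund
  have h0 := hsum x hx
  have h1 : ∑ w ∈ (BE x).filter (· ∈ Q), (1 : ℝ) / nm w ≤
      (BE M).card + ∑ w ∈ ((BE x).filter (· ∈ Q)).filter (fun w => ¬ nm w ∣ M), (1 : ℝ) / nm w := by
    rw [← Finset.sum_filter_add_sum_filter_not ((BE x).filter (· ∈ Q)) (fun w => nm w ∣ M)]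
    refine add_le_add ?_ le_rfl
    have h2 : ∑ w ∈ ((BE x).filter (· ∈ Q)).filter (fun w => nm w ∣ M), (1 : ℝ) / nm w ≤
        ∑ w ∈ ((BE x).filter (· ∈ Q)).filter (fun w => nm w ∣ M), (1 : ℝ) := by
      refine Finset.sum_le_sum fun w _ => ?_
      have := (card_quot5 w).2
      have h3 : (2 : ℝ) ≤ nm w := by exact_mod_cast this
      rw [div_le_one (by linarith)]
      linarith
    refine h2.trans ?_
    rw [Finset.sum_const, nsmul_eq_mul, mul_one]
    have h3 : ((BE x).filter (· ∈ Q)).filter (fun w => nm w ∣ M) ⊆ BE M := by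
      intro w hw
      rw [hBE]
      exact Nat.le_of_dvd (Nat.pos_of_ne_zero hM) (Finset.mem_filter.1 hw).2
    exact_mod_cast Finset.card_le_card h3
  have h2 : ∑ w ∈ ((BE x).filter (· ∈ Q)).filter (fun w => ¬ nm w ∣ M), (1 : ℝ) / nm w ≤
      Module.finrank ℚ E * ∑ v ∈ (B x).filter (· ∈ Q'), (1 : ℝ) / nm v := by
    have hmaps : ∀ w ∈ ((BE x).filter (· ∈ Q)).filter (fun w => ¬ nm w ∣ M),
        u w ∈ (B x).filter (· ∈ Q') := by
      intro w hw
      obtain ⟨h3, h4⟩ := Finset.mem_filter.1 hw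
      obtain ⟨h5, h6⟩ := Finset.mem_filter.1 h3
      obtain ⟨h7, h8⟩ := hu w (hQ w h6)
      rw [Finset.mem_filter, hB, h8]
      exact ⟨(hBE x w).1 h5, hQ' w h6 h4 _ h7 h8⟩
    rw [← Finset.sum_fiberwise_of_maps_to hmaps, Finset.mul_sum]
    refine Finset.sum_le_sum fun v hv => ?_
    have h3 : ∀ w ∈ (((BE x).filter (· ∈ Q)).filter (fun w => ¬ nm w ∣ M)).filter
        (fun w => u w = v), (1 : ℝ) / nm w = 1 / nm v := by
      intro w hw
      obtain ⟨h4, h5⟩ := Finset.mem_filter.1 hw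
      have h6 := (Finset.mem_filter.1 (Finset.mem_filter.1 h4).1).2
      rw [← h5, (hu w (hQ w h6)).2]
    rw [Finset.sum_congr rfl h3, Finset.sum_const, nsmul_eq_mul]
    refine mul_le_mul_of_nonneg_right ?_ (by positivity)
    -- the number of primes above `v`
    by_cases hpr : (nm v).Prime
    · have hp : Fact (nm v).Prime := ⟨hpr⟩
      have h4 := card_Q_le (k := E) Q (nm v)
      refine le_trans ?_ (Nat.cast_le.2 h4)
      rw [← Fintype.card_coe, ← Nat.card_eq_fintype_card]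
      have hfin : Finite {v' : Pr E // v' ∈ Q ∧ nm v' = nm v} :=
        Finite.of_injective (fun v' => (⟨v'.1, v'.2.2⟩ : {v' : Pr E // nm v' = nm v}))
          fun a b h => Subtype.ext (congrArg (fun z : {v' : Pr E // nm v' = nm v} => z.1) h)
      have hmem : ∀ w ∈ (((BE x).filter (· ∈ Q)).filter (fun w => ¬ nm w ∣ M)).filter
          (fun w => u w = v), w ∈ Q ∧ nm w = nm v := by
        intro w hw
        have h5 := Finset.mem_filter.1 hw
        have h6 := (Finset.mem_filter.1 (Finset.mem_filter.1 h5.1).1).2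
        refine ⟨h6, ?_⟩
        rw [← (hu w (hQ w h6)).2, h5.2]
      refine Nat.cast_le.2 (Nat.card_le_card_of_injective
        (fun w => (⟨w.1, hmem w.1 w.2⟩ : {v' : Pr E // v' ∈ Q ∧ nm v' = nm v})) ?_)
      intro w w' h
      exact Subtype.ext (congrArg (fun z : {v' : Pr E // v' ∈ Q ∧ nm v' = nm v} => z.1) h)
    · have h4 : (((BE x).filter (· ∈ Q)).filter (fun w => ¬ nm w ∣ M)).filter
          (fun w => u w = v) = ∅ := by
        rw [Finset.filter_eq_empty_iff]
        intro w hw h5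
        have h6 := (Finset.mem_filter.1 (Finset.mem_filter.1 hw).1).2
        apply hpr
        rw [← h5, (hu w (hQ w h6)).2]
        exact hQ w h6
      rw [h4, Finset.card_empty, Nat.cast_zero]
      exact hK.le
  have h3 : δ * Real.log (Real.log x) - C - (BE M).card ≤
      Module.finrank ℚ E * ∑ v ∈ (B x).filter (· ∈ Q'), (1 : ℝ) / nm v := by linarith
  have h4 : δ / Module.finrank ℚ E * Real.log (Real.log x) -
      (C + (BE M).card) / Module.finrank ℚ E =
      (δ * Real.log (Real.log x) - C - (BE M).card) / Module.finrank ℚ E := by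
    field_simp
    ring
  rw [h4, div_le_iff₀ hK]
  exact h3.trans (le_of_eq (mul_comm _ _))

end neg

theorem neg29 : StmtNeg := by
  classical
  intro _ k L _ _ _ _ _ _ M hM θ θ' e heE he0 hsq B hB
  -- the field `E`
  let E : IntermediateField k L := k⟮θ, θ'⟯
  have hNE : NumberField E := NumberField.of_module_finite k E
  have hθE : θ ∈ E := IntermediateField.subset_adjoin _ _ (Set.mem_insert _ _)
  have hθE' : θ' ∈ E :=
    IntermediateField.subset_adjoin _ _ (Set.mem_insert_of_mem _ (Set.mem_singleton _))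
  obtain ⟨e', he'⟩ : ∃ e' : E, algebraMap E L e' = e := ⟨⟨e, heE⟩, rfl⟩
  obtain ⟨τ, hτ⟩ : ∃ τ : E, algebraMap E L τ = θ := ⟨⟨θ, hθE⟩, rfl⟩
  obtain ⟨τ', hτ'⟩ : ∃ τ' : E, algebraMap E L τ' = θ' := ⟨⟨θ', hθE'⟩, rfl⟩
  have he0' : e' ≠ 0 := by
    rintro rfl
    rw [map_zero] at he'
    exact he0 he'.symm
  have hnsq : ∀ d : E, e' ≠ d ^ 2 := by
    intro d hd
    apply hsq
    refine ⟨(d : L), d.2, ?_⟩
    rw [← he', hd, map_pow]
    rfl
  -- the quadratic extension
  let q : (E : Type)[X] := X ^ 2 - C e'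
  have hsep : q.Separable := separable_X_pow_sub_C e' (by norm_num) he0'
  let L' := q.SplittingField
  have hNL' : NumberField L' := NumberField.of_module_finite E L'
  have hGal : IsGalois E L' := IsGalois.of_separable_splitting_field hsep
  obtain ⟨s, hs⟩ : ∃ s : L', s ^ 2 = algebraMap E L' e' := by
    have h1 := SplittingField.splits q
    have h2 : (q.map (algebraMap E q.SplittingField)).degree ≠ 0 := by
      rw [degree_map]
      have : q.degree = 2 := degree_X_pow_sub_C two_pos e'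
      rw [this]
      norm_num
    obtain ⟨s, hs⟩ := h1.exists_eval_eq_zero h2
    refine ⟨s, ?_⟩
    rw [eval_map] at hs
    simp only [q, eval₂_sub, eval₂_pow, eval₂_X, eval₂_C] at hs
    exact sub_eq_zero.1 hs
  obtain ⟨BE, hBE⟩ := exists_B5 E
  obtain ⟨δ, C, Q, hδ, hQ, hsum⟩ := der29 E L' {s, -s} (by
    intro σ x hx
    have h1 : σ s ^ 2 = s ^ 2 := by
      rw [← map_pow, hs, AlgEquiv.commutes]
    have h2 : σ s = s ∨ σ s = -s := sq_eq_sq_iff_eq_or_eq_neg.1 h1
    rw [Finset.mem_insert, Finset.mem_singleton] at hx ⊢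
    rcases hx with rfl | rfl
    · exact h2
    · rw [map_neg]
      rcases h2 with h2 | h2
      · rw [h2]
        exact Or.inr rfl
      · rw [h2, neg_neg]
        exact Or.inl rfl) (by
    intro x hx a ha
    have h1 : x ^ 2 = algebraMap E L' e' := by
      rw [Finset.mem_insert, Finset.mem_singleton] at hx
      rcases hx with rfl | rfl
      · exact hs
      · rw [neg_sq]
        exact hs
    rw [ha, ← map_pow] at h1
    exact hnsq a ((algebraMap E L').injective h1).symm) (Finset.card_le_two.trans (by norm_num))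
    BE hBE
  -- the excluded primes
  obtain ⟨M₁, hM₁, hun⟩ := exists_M_unit (L := E) (({e', τ, τ'} : Finset E).filter (· ≠ 0))
    (fun z hz => (Finset.mem_filter.1 hz).2)
  have hint : ∀ (w : Pr E) {z : E}, z ∈ ({e', τ, τ'} : Finset E) → (nm w).Prime →
      ¬ nm w ∣ M₁ → w.valuation E z ≤ 1 := by
    intro w z hz hw hwM
    by_cases hz0 : z = 0
    · rw [hz0, map_zero]
      exact zero_le
    · exact (hun (nm w) w hw hwM (Ideal.absNorm_mem _) z (Finset.mem_filter.2 ⟨hz, hz0⟩)).le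
  let Q' : Set (Pr k) := {v | ∃ (p : ℕ) (P : Pr L), Over M p v P ∧ P.valuation L e = 1 ∧
        P.valuation L (θ ^ nm v - θ) < 1 ∧ P.valuation L (θ' ^ nm v - θ') < 1 ∧
        ¬ P.valuation L (e ^ ((nm v - 1) / 2) - 1) < 1}
  obtain ⟨δ', C', h1, h2⟩ := descent29 hB hBE (fun w hw => (hQ w hw).1) hδ (C := C)
    (fun x hx => by
      have h1 := abs_le.1 (hsum x hx)
      linarith [h1.1]) (M := 2 * M * M₁) (mul_ne_zero (mul_ne_zero two_ne_zero hM) hM₁)
    (Q' := Q') (by
      intro w hw hwM v hv hvw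
      obtain ⟨hpr, hcon⟩ := hQ w hw
      have hwM₁ : ¬ nm w ∣ M₁ := fun h => hwM (h.mul_left _)
      have hw2 : nm w ≠ 2 := fun h => hwM (by
        rw [h]
        exact ((dvd_refl 2).mul_right _).mul_right _)
      obtain ⟨P, hP⟩ := exists_over (k := E) (L := L) w
      obtain ⟨P', hP'⟩ := exists_over (k := E) (L := L') w
      have hPv : P.asIdeal.comap (algebraMap (𝓞 k) (𝓞 L)) = v.asIdeal := by
        rw [← hv, ← hP, Ideal.comap_comap]
        rfl
      have he1 : w.valuation E e' = 1 := hun (nm w) w hpr hwM₁ (Ideal.absNorm_mem _) e'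
        (Finset.mem_filter.2 ⟨by simp, he0'⟩)
      refine ⟨nm w, P, ⟨hpr, fun h => hwM ((h.mul_left _).mul_right _), ?_, hPv⟩, ?_, ?_, ?_, ?_⟩
      · rw [← hvw]
        exact Ideal.absNorm_mem _
      · rw [← he', val_eq_over hP]
        exact he1
      · rw [← hτ, hvw, ← map_pow, ← map_sub, val_lt_over hP]
        exact fermat29 w (hint w (by simp) hpr hwM₁)
      · rw [← hτ', hvw, ← map_pow, ← map_sub, val_lt_over hP]
        exact fermat29 w (hint w (by simp) hpr hwM₁)
      · rw [← he', hvw, ← map_pow, ← map_one (algebraMap E L), ← map_sub, val_lt_over hP]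
        intro h3
        rw [← val_lt_over hP', map_sub, map_pow, map_one, ← hs] at h3
        refine hcon P' hP' s (Finset.mem_insert_self _ _) ?_
        have hodd : Odd (nm w) := hpr.odd_of_ne_two hw2
        obtain ⟨r, hr⟩ := hodd
        have e1 : (nm w - 1) / 2 = r := by omega
        rw [e1, ← pow_mul] at h3
        have e2 : s ^ nm w - s = s * (s ^ (2 * r) - 1) := by
          rw [hr]
          ring
        have hs1 : P'.valuation L' s ≤ 1 := by
          have h4 : P'.valuation L' (s ^ 2) = 1 := by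
            rw [hs, val_eq_over hP']
            exact he1
          rw [map_pow] at h4
          exact ((pow_eq_one_iff_of_nonneg zero_le two_ne_zero).1 h4).le
        rw [e2, mul_comm, map_mul]
        exact mul_lt_one_of_lt_of_le h3 hs1)
  refine ⟨δ', C', Q', h1, fun v hv => hv, fun x hx => (h2 x hx).trans (le_of_eq ?_)⟩
  congr!

end Pool.Agent.HG
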