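import Pool.Agent.Helper5.HG.G3
import Pool.Agent.Helper99.HG.Sum
import Pool.Agent.Helper13.HG2.Defs

/-!
# Project HG2, block SM: all primes with root different from `a` are very small
-/

set_option autoImplicit false

namespace Pool.Agent.HG

open Polynomial NumberField IsDedekindDomain
open Pool.Agent.Helper99.HG (CD Nm Sys hall)
open scoped Pointwise IntermediateField

section sm

variable {k L : Type} [Field k] [NumberField k] [Field L] [NumberField L] [Algebra k L]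
  [IsGalois k L] {f : k[X]} {X : Ctx k L f}

omit [NumberField L] [Algebra k L] [IsGalois k L] in
theorem p_le_nm29 {v : Pr k} {p : ℕ} (hp : p.Prime) (hv : (p : 𝓞 k) ∈ v.asIdeal) : p ≤ nm v := by
  have h1 : ((nm v : ℕ) : 𝓞 k) ∈ v.asIdeal := Ideal.absNorm_mem _
  have h2 : (p : ℤ) ∣ ((nm v : ℕ) : ℤ) := dvd_of_mem hp hv (by exact_mod_cast h1)
  exact Nat.le_of_dvd (by have := (card_quot5 v).2; omega) (by exact_mod_cast h2)

theorem root_a29 (X : Ctx k L f) {a : k} (ha : eval a f = 0) : algebraMap k L a ∈ f.rootSet L := by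
  rw [mem_rootSet]
  refine ⟨X.sepf.ne_zero, ?_⟩
  rw [aeval_algebraMap_apply]
  have : aeval a f = 0 := ha
  rw [this, map_zero]

variable {c : k} {S : Finset (Pr k)} {D : L → L → L} {α : Pr k → 𝓞 k} {t : Pr k → L}

theorem DatS.al29 (h : DatS X c S D α t) {a : k} {v : Pr k} (hv : v ∈ S)
    (hta : t v = algebraMap k L a) {P : Pr L}
    (hco : P.asIdeal.comap (algebraMap (𝓞 k) (𝓞 L)) = v.asIdeal) :
    P.valuation L (algebraMap k L (α v) - algebraMap k L a) < 1 := by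
  have h1 := h.t_val v hv
  rw [hta, ← map_sub, val_lt_over (X.comap v)] at h1
  rw [← map_sub, val_lt_over hco]
  exact h1

theorem DatS.al_one29 (h : DatS X c S D α t) {a : k} (ha : eval a f = 0) {v : Pr k} (hv : v ∈ S)
    (hta : t v = algebraMap k L a) {p : ℕ} {P : Pr L} (ho : Over X.M p v P) {θ : L}
    (hθ : θ ∈ f.rootSet L) (hne : θ ≠ algebraMap k L a) :
    P.valuation L (algebraMap k L (α v) - θ) = 1 := by
  have h1 := X.sep p v P ho _ (root_a29 X ha) θ hθ hne.symm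
  have h2 : algebraMap k L (α v) - θ = (algebraMap k L (α v) - algebraMap k L a) +
      (algebraMap k L a - θ) := by ring
  rw [h2, Valuation.map_add_eq_of_lt_right _ (by rw [h1]; exact h.al29 hv hta ho.comap), h1]

omit [IsGalois k L] in
theorem Over.mono29 {M M' p : ℕ} {v : Pr k} {P : Pr L} (h : Over M' p v P) (hM : M ∣ M') :
    Over M p v P := ⟨h.prime, fun h1 => h.not_dvd (h1.trans hM), h.mem, h.comap⟩

theorem not_le29 {M B p : ℕ} (hp : p.Prime) (h : ¬ p ∣ M * B.factorial) : B < p := by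
  by_contra hc
  exact h (Dvd.dvd.mul_left ((hp.dvd_factorial).2 (not_lt.1 hc)) _)

/-- the valuations are even -/
theorem DatS.ev29 (h : DatS X c S D α t) {a : k} (ha : eval a f = 0) {B : ℕ}
    (hB : ∀ v ∈ S, t v ≠ algebraMap k L a → nm v ≤ B) {θ θ' : L} (hθ : θ ∈ f.rootSet L)
    (hθ' : θ' ∈ f.rootSet L) (hne : θ ≠ θ') (hθa : θ ≠ algebraMap k L a)
    (hθa' : θ' ≠ algebraMap k L a) (p : ℕ) (P : Pr L) (hp : p.Prime)
    (hpM : ¬ p ∣ X.M * B.factorial) (hP : (p : 𝓞 L) ∈ P.asIdeal) :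
    Ev P p (D θ θ' * ((algebraMap k L a - θ) * (algebraMap k L a - θ'))) := by
  obtain ⟨v, hco, hmem⟩ := exists_under (k := k) P hp hP
  have ho : Over X.M p v P := ⟨hp, fun h1 => hpM (Dvd.dvd.mul_right h1 _), hmem, hco⟩
  have h1 := X.sep p v P ho _ (root_a29 X ha) θ hθ hθa.symm
  have h2 := X.sep p v P ho _ (root_a29 X ha) θ' hθ' hθa'.symm
  have key : Ev P p (D θ θ') → Ev P p (D θ θ' * ((algebraMap k L a - θ) * (algebraMap k L a - θ'))) := by
    rintro ⟨m, hm⟩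
    refine ⟨m, ?_⟩
    rw [mul_right_comm, map_mul, hm, map_mul, h1, h2, one_mul, one_mul]
  apply key
  by_cases hv : v ∈ S
  · have hod : Od v p c := (X.isOdd_iff hp ho.not_dvd hmem h.hc).1 ((h.hS v).1 hv).2
    have hta : t v = algebraMap k L a := by
      by_contra hcon
      have h3 := hB v hv hcon
      have h4 := p_le_nm29 hp hmem
      have h5 := not_le29 hp hpM
      omega
    exact h.bad.even p v P ho hod θ hθ θ' hθ' hne (h.al_one29 ha hv hta ho hθ hθa)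
      (h.al_one29 ha hv hta ho hθ' hθa')
  · have hev : Ev v p c := X.ev_of_not_isOdd hp ho.not_dvd hmem h.hc
      (fun h1 => hv ((h.hS v).2 ⟨⟨p, hp, ho.not_dvd, hmem⟩, h1⟩))
    exact h.bad.good p v P ho hev θ hθ θ' hθ' hne

theorem DatS.mem29 (h : DatS X c S D α t) (a : k) {θ θ' : L} (hθ : θ ∈ f.rootSet L)
    (hθ' : θ' ∈ f.rootSet L) (hne : θ ≠ θ') :
    D θ θ' * ((algebraMap k L a - θ) * (algebraMap k L a - θ')) ∈ k⟮θ, θ'⟯ := by
  refine mem_adjoin_of_fixed fun σ hσ hσ' => ?_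
  rw [map_mul, map_mul, map_sub, map_sub, AlgEquiv.commutes, hσ, hσ',
    h.D_fixed ((X.mem_Ω _).2 hθ) ((X.mem_Ω _).2 hθ') hne hσ hσ']

/-- the primes of `Q` do not divide `c` -/
theorem DatS.not_mem29 (h : DatS X c S D α t) {a : k} (ha : eval a f = 0) {B : ℕ}
    (hB : ∀ v ∈ S, t v ≠ algebraMap k L a → nm v ≤ B) {θ θ' : L} (hθ : θ ∈ f.rootSet L)
    (hθ' : θ' ∈ f.rootSet L) (hne : θ ≠ θ') (hθa : θ ≠ algebraMap k L a)
    (hθa' : θ' ≠ algebraMap k L a) {e d : L} (he : e ∈ k⟮θ, θ'⟯) (hd : d ∈ k⟮θ, θ'⟯)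
    (hz : D θ θ' * ((algebraMap k L a - θ) * (algebraMap k L a - θ')) = e * d ^ 2)
    {p : ℕ} {v : Pr k} {P : Pr L} (hov : Over (X.M * B.factorial) p v P)
    (he1 : P.valuation L e = 1) (h1 : P.valuation L (θ ^ nm v - θ) < 1)
    (h2 : P.valuation L (θ' ^ nm v - θ') < 1)
    (h3 : ¬ P.valuation L (e ^ ((nm v - 1) / 2) - 1) < 1) : v ∉ S := by
  intro hv
  have ho : Over X.M p v P := hov.mono29 (Dvd.intro _ rfl)
  have hp := ho.prime
  have hod : Od v p c := (X.isOdd_iff hp ho.not_dvd ho.mem h.hc).1 ((h.hS v).1 hv).2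
  have hta : t v = algebraMap k L a := by
    by_contra hcon
    have h3 := hB v hv hcon
    have h4 := p_le_nm29 hp ho.mem
    have h5 := not_le29 hp hov.not_dvd
    omega
  have g1 := h.al_one29 ha hv hta ho hθ hθa
  have g2 := h.al_one29 ha hv hta ho hθ' hθa'
  obtain ⟨m, hm⟩ := h.bad.even p v P ho hod θ hθ θ' hθ' hne g1 g2
  have htan := h.bad.tangent p v P ho hod θ hθ θ' hθ' hne g1 g2 (nm v) 1 rfl one_pos
    (by rw [pow_one]; exact h1) (by rw [pow_one]; exact h2) m hm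
  -- the Frobenius element
  obtain ⟨σ, hst, hfr⟩ := exists_frob ho.comap
  have hfix : ∀ {x : L}, x ∈ f.rootSet L → P.valuation L (x ^ nm v - x) < 1 → σ x = x := by
    intro x hx hxN
    by_contra hcon
    have hσx : σ x ∈ f.rootSet L := (X.mem_Ω _).1 (X.conj_mem ((X.mem_Ω _).2 hx) σ)
    have h4 := X.sep p v P ho _ hσx _ hx hcon
    have h5 : σ x - x = (σ x - x ^ nm v) + (x ^ nm v - x) := by ring
    have h6 := Valuation.map_add_lt (P.valuation L) (hfr x (X.int p v P ho x hx)) hxN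
    rw [← h5, h4] at h6
    exact lt_irrefl _ h6
  have hσθ := hfix hθ h1
  have hσθ' := hfix hθ' h2
  have hun : ∀ {x : L}, P.valuation L x = 1 → σ x = x → Un P (nm v) x := by
    intro x hx hσx
    have h4 := hfr x hx.le
    rw [hσx] at h4
    exact ⟨hx, Cg.symm ⟨hx.le, by rw [map_pow, hx, one_pow], h4⟩⟩
  have hp0 : (p : L) ≠ 0 := by exact_mod_cast hp.ne_zero
  have htwo : P.valuation L (2 : L) = 1 := by
    have e1 : (2 : L) = (((2 : 𝓞 L)) : L) := (map_ofNat (algebraMap (𝓞 L) L) 2).symm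
    rw [e1, val_int_one]
    intro h4
    have h5 : (p : 𝓞 L) ∈ P.asIdeal := by
      have := ho.mem
      rw [← ho.comap, Ideal.mem_comap, map_natCast] at this
      exact this
    exact X.two_ne ho.not_dvd (eq_of_mem_mem hp Nat.prime_two h5 (by exact_mod_cast h4))
  have hodd := X.nm_odd hp ho.not_dvd ho.mem
  -- `u' = e w ^ 2`
  have hsa := X.sep p v P ho _ (root_a29 X ha) θ hθ hθa.symm
  have hsa' := X.sep p v P ho _ (root_a29 X ha) θ' hθ' hθa'.symm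
  have e1 : (p : L) ^ (2 * m) = ((p : L) ^ m) ^ 2 := by
    rw [← zpow_natCast, ← zpow_mul, mul_comm]
    rfl
  have e2 : D θ θ' * (p : L) ^ (2 * m) * ((algebraMap k L a - θ) * (algebraMap k L a - θ')) =
      e * (d * (p : L) ^ m) ^ 2 := by
    rw [mul_right_comm, hz, e1]
    ring
  have hσp : σ ((p : L) ^ m) = (p : L) ^ m := by rw [map_zpow₀, map_natCast]
  have hU : P.valuation L (D θ θ' * (p : L) ^ (2 * m) *
      ((algebraMap k L a - θ) * (algebraMap k L a - θ'))) = 1 := by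
    rw [map_mul, hm, map_mul, hsa, hsa', one_mul, one_mul]
  have hw1 : P.valuation L (d * (p : L) ^ m) = 1 := by
    rw [e2, map_mul, he1, one_mul, map_pow] at hU
    exact (pow_eq_one_iff_of_nonneg zero_le two_ne_zero).1 hU
  have hw : Un P (nm v) (d * (p : L) ^ m) :=
    hun hw1 (by rw [map_mul, hσp, fixed_of_mem_adjoin hd hσθ hσθ'])
  have heU : Un P (nm v) e := hun he1 (fixed_of_mem_adjoin he hσθ hσθ')
  have hew : Un P (nm v) (e * (d * (p : L) ^ m) ^ 2) := by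
    rw [pow_two]
    exact heU.mul (hw.mul hw)
  have hcg : Cg P (D θ θ' * (p : L) ^ (2 * m) *
      ((algebraMap k L (α v) - θ) * (algebraMap k L (α v) - θ')))
      (e * (d * (p : L) ^ m) ^ 2) := by
    rw [← e2]
    have haa : Cg P (algebraMap k L (α v)) (algebraMap k L a) :=
      ⟨val_alg_int _ _, X.int p v P ho _ (root_a29 X ha), h.al29 hv hta ho.comap⟩
    exact (Cg.refl hm.le).mul ((haa.sub (Cg.refl (X.int p v P ho _ hθ))).mul
      (haa.sub (Cg.refl (X.int p v P ho _ hθ'))))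
  have hT : eul P (nm v) (D θ θ' * (p : L) ^ (2 * m) *
      ((algebraMap k L (α v) - θ) * (algebraMap k L (α v) - θ'))) = 1 := by
    unfold eul
    rw [pow_one] at htan
    rw [if_pos htan]
  rw [eul_congr htwo hodd hew hcg, pow_two, eul_mul htwo hodd heU (hw.mul hw),
    eul_mul htwo hodd hw hw, Int.units_mul_self, mul_one] at hT
  unfold eul at hT
  rw [if_neg h3] at hT
  exact absurd hT (by decide)

end sm

theorem min29 {ι : Type} (I : Finset ι) (δ : ι → ℝ) (h : ∀ i ∈ I, 0 < δ i) :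
    ∃ η : ℝ, 0 < η ∧ ∀ i ∈ I, η ≤ δ i := by
  classical
  induction I using Finset.induction_on with
  | empty => exact ⟨1, one_pos, by simp⟩
  | insert i I _ ih =>
    obtain ⟨η, h1, h2⟩ := ih fun j hj => h j (Finset.mem_insert_of_mem hj)
    refine ⟨min η (δ i), lt_min h1 (h i (Finset.mem_insert_self _ _)), fun j hj => ?_⟩
    rcases Finset.mem_insert.1 hj with rfl | hj
    · exact min_le_right _ _
    · exact (min_le_left _ _).trans (h2 j hj)

/-- the number of the sets of primes which avoid `Q` -/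
theorem avoid29 (hMe : StmtMert) {k : Type} [Field k] [NumberField k] (Q : Set (Pr k)) {δ C : ℝ}
    {B : ℕ → Finset (Pr k)} (hB : ∀ x v, v ∈ B x ↔ nm v ≤ x)
    (hC : ∀ x : ℕ, 2 ≤ x → δ * Real.log (Real.log x) - C ≤
      Finset.sum (@Finset.filter _ (· ∈ Q) (Classical.decPred _) (B x)) fun v => (1 : ℝ) / nm v) :
    ∃ C' : ℝ, 0 < C' ∧ ∀ x : ℕ, 3 ≤ x → ∀ S : Finset (Finset (Pr k)),
      (∀ s ∈ S, ∏ v ∈ s, nm v ≤ x ∧ ∀ v ∈ Q, v ∉ s) → (S.card : ℝ) ≤ C' * x / Real.log x ^ δ := by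
  classical
  let DD : CD 1 ℤˣ :=
    { P := Pr k, nm := nm, Ex := ∅, O := Unit, ι := Unit, V := fun _ => ∅, cmp := fun _ => 0,
      I := fun _ _ _ => ∅, χ := fun _ _ _ _ => 1, g := fun _ _ _ => 1 }
  have hS : Sys DD.P DD.nm := sys5 hMe k
  obtain ⟨C₁, hC₁, hh⟩ := hall hS
  refine ⟨C₁ * Real.exp C, by positivity, fun x hx S hSx => ?_⟩
  have hx0 : (0 : ℝ) ≤ x := Nat.cast_nonneg x
  have hl0 : 0 < Real.log x := Real.log_pos (by exact_mod_cast (by omega : 1 < x))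
  have h1 := hh x (by omega) (@Finset.filter _ (· ∈ Q) (Classical.decPred _) (B x))
    (fun p hp => (hB x p).1 (Finset.mem_filter.1 hp).1) S
    (fun s hs => ⟨(hSx s hs).1, Finset.disjoint_left.2 fun v hv hv' =>
      (hSx s hs).2 v (Finset.mem_filter.1 hv').2 hv⟩)
  have h2 := hC x (by omega)
  refine h1.trans ?_
  have h3 : Real.exp (-Finset.sum (@Finset.filter _ (· ∈ Q) (Classical.decPred _) (B x))
      fun v => (1 : ℝ) / nm v) ≤ Real.exp C * (Real.log x ^ δ)⁻¹ := by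
    have h4 : (Real.log x ^ δ)⁻¹ = Real.exp (-(δ * Real.log (Real.log x))) := by
      rw [Real.rpow_def_of_pos hl0, Real.exp_neg, mul_comm δ]
    rw [h4, ← Real.exp_add]
    exact Real.exp_le_exp.2 (by linarith)
  calc C₁ * x * Real.exp (-∑ p ∈ (@Finset.filter _ (· ∈ Q) (Classical.decPred _) (B x)),
        (1 : ℝ) / DD.nm p) ≤ C₁ * x * (Real.exp C * (Real.log x ^ δ)⁻¹) :=
        mul_le_mul_of_nonneg_left h3 (by positivity)
    _ = C₁ * Real.exp C * x / Real.log x ^ δ := by ring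

theorem small29 : StmtSmall := by
  classical
  intro hsel hMe hNeg k L _ _ _ _ _ _ f X h4 a ha B
  obtain ⟨Bf, hBf⟩ := exists_B5 k
  have hM' : X.M * B.factorial ≠ 0 := mul_ne_zero X.hM (Nat.factorial_ne_zero B)
  choose Fs hFs1 hFs2 using fun θ θ' : L => hsel k L k⟮θ, θ'⟯ (X.M * B.factorial) hM'
  obtain ⟨I, hI⟩ : ∃ I : Finset (L × L × L), ∀ i, i ∈ I ↔ (i.1 ∈ X.Ω ∧ i.2.1 ∈ X.Ω ∧
      i.2.2 ∈ Fs i.1 i.2.1) ∧ i.2.2 ∈ k⟮i.1, i.2.1⟯ ∧ i.2.2 ≠ 0 ∧
        ¬ ∃ d ∈ k⟮i.1, i.2.1⟯, i.2.2 = d ^ 2 := by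
    refine ⟨((X.Ω ×ˢ X.Ω).biUnion fun x => (Fs x.1 x.2).image fun e => (x.1, x.2, e)).filter
      fun i => i.2.2 ∈ k⟮i.1, i.2.1⟯ ∧ i.2.2 ≠ 0 ∧ ¬ ∃ d ∈ k⟮i.1, i.2.1⟯, i.2.2 = d ^ 2, ?_⟩
    rintro ⟨θ, θ', e⟩
    rw [Finset.mem_filter]
    refine and_congr ?_ Iff.rfl
    simp only [Finset.mem_biUnion, Finset.mem_product, Finset.mem_image, Prod.mk.injEq, Prod.exists]
    constructor
    · rintro ⟨a, b, ⟨h1, h2⟩, e', h3, rfl, rfl, rfl⟩
      exact ⟨h1, h2, h3⟩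
    · rintro ⟨h1, h2, h3⟩
      exact ⟨θ, θ', ⟨h1, h2⟩, e, h3, rfl, rfl, rfl⟩
  have hQ : ∀ i : L × L × L, ∃ (δ C : ℝ) (Q : Set (Pr k)), 0 < δ ∧ 0 < C ∧ (i ∈ I →
      (∀ v ∈ Q, ∃ (p : ℕ) (P : Pr L), Over (X.M * B.factorial) p v P ∧
        P.valuation L i.2.2 = 1 ∧ P.valuation L (i.1 ^ nm v - i.1) < 1 ∧
        P.valuation L (i.2.1 ^ nm v - i.2.1) < 1 ∧
        ¬ P.valuation L (i.2.2 ^ ((nm v - 1) / 2) - 1) < 1) ∧
      ∀ x : ℕ, 3 ≤ x → ∀ S : Finset (Finset (Pr k)),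
        (∀ s ∈ S, ∏ v ∈ s, nm v ≤ x ∧ ∀ v ∈ Q, v ∉ s) → (S.card : ℝ) ≤ C * x / Real.log x ^ δ) := by
    intro i
    by_cases hi : i ∈ I
    · obtain ⟨_, h1, h2, h3⟩ := (hI i).1 hi
      obtain ⟨δ, C, Q, h5, h6, h7⟩ := hNeg hMe k L (X.M * B.factorial) hM' i.1 i.2.1 i.2.2 h1 h2 h3
        Bf hBf
      obtain ⟨C', h8, h9⟩ := avoid29 hMe Q hBf (δ := δ) (C := C) (fun x hx => by
        refine (h7 x hx).trans (le_of_eq ?_)
        congr!)
      exact ⟨δ, C', Q, h5, h8, fun _ => ⟨h6, h9⟩⟩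
    · exact ⟨1, 1, ∅, one_pos, one_pos, fun h => absurd h hi⟩
  choose δ C Q hδ hC hQ using hQ
  obtain ⟨η, hη, hηδ⟩ := min29 I δ fun i _ => hδ i
  refine ⟨η, 1 + ∑ i ∈ I, C i, hη, ?_, ?_⟩
  · have : 0 ≤ ∑ i ∈ I, C i := Finset.sum_nonneg fun i _ => (hC i).le
    linarith
  intro x hx S hS
  have hx0 : (0 : ℝ) ≤ x := Nat.cast_nonneg x
  have hl1 : 1 ≤ Real.log x := Pool.Agent.Helper99.HG.log_ge_one hx
  have hcov : S ⊆ I.biUnion fun i => S.filter fun s => ∀ v ∈ Q i, v ∉ s := by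
    intro s hs
    obtain ⟨_, c, D, α, t, hd, hntr, hsm⟩ := hS s hs
    unfold Triv at hntr
    push Not at hntr
    obtain ⟨θ, hθ, θ', hθ', hne, hθa, hθa', hsq⟩ := hntr
    have hz0 : D θ θ' * ((algebraMap k L a - θ) * (algebraMap k L a - θ')) ≠ 0 :=
      mul_ne_zero (hd.bad.ne θ hθ θ' hθ' hne)
        (mul_ne_zero (sub_ne_zero.2 hθa.symm) (sub_ne_zero.2 hθa'.symm))
    obtain ⟨e, he, d, hdd, hz⟩ := hFs2 θ θ' _ (hd.mem29 a hθ hθ' hne) hz0
      (fun p P hp hpM hP => hd.ev29 ha hsm hθ hθ' hne hθa hθa' p P hp hpM hP)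
    obtain ⟨he1, he2⟩ := hFs1 θ θ' e he
    have hiI : (θ, θ', e) ∈ I := by
      rw [hI]
      refine ⟨⟨(X.mem_Ω _).2 hθ, (X.mem_Ω _).2 hθ', he⟩, he1, he2, ?_⟩
      rintro ⟨d', hd', hed⟩
      have hed' : e = d' ^ 2 := hed
      refine hsq (d' * d) (mul_mem hd' hdd) ?_
      rw [hz, hed', mul_pow]
    refine Finset.mem_biUnion.2 ⟨_, hiI, Finset.mem_filter.2 ⟨hs, fun v hv => ?_⟩⟩
    obtain ⟨p, P, g1, g2, g3, g4, g5⟩ := (hQ _ hiI).1 v hv
    exact hd.not_mem29 ha hsm hθ hθ' hne hθa hθa' he1 hdd hz g1 g2 g3 g4 g5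
  have h1 : (S.card : ℝ) ≤ ∑ i ∈ I, C i * x / Real.log x ^ η := by
    have h2 := (Finset.card_le_card hcov).trans Finset.card_biUnion_le
    have h3 : (S.card : ℝ) ≤ ∑ i ∈ I, ((S.filter fun s => ∀ v ∈ Q i, v ∉ s).card : ℝ) := by
      exact_mod_cast h2
    refine h3.trans (Finset.sum_le_sum fun i hi => ?_)
    refine ((hQ i hi).2 x hx _ fun s hs => ?_).trans ?_
    · obtain ⟨h4, h5⟩ := Finset.mem_filter.1 hs
      exact ⟨(hS s h4).1, h5⟩
    · refine div_le_div_of_nonneg_left (mul_nonneg (hC i).le hx0)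
        (Real.rpow_pos_of_pos (by linarith) _) ?_
      exact Real.rpow_le_rpow_of_exponent_le hl1 (hηδ i hi)
  refine h1.trans ?_
  rw [← Finset.sum_div, ← Finset.sum_mul]
  refine div_le_div_of_nonneg_right ?_ (Real.rpow_nonneg (by linarith) _)
  have : (0 : ℝ) ≤ ∑ i ∈ I, C i := Finset.sum_nonneg fun i _ => (hC i).le
  nlinarith

end Pool.Agent.HG
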